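import Mathlib
import Pool.Agent.Helper256.KM.Mertens

/-!
# Project LS (helper841), job 4417: a second moment for sums of symbols over pairs
-/

set_option autoImplicit false

namespace Pool.Agent.TH374.LS

open Finset

/-! ### Sums of periodic functions -/

lemma sum_range_zmod (n : ℕ) [NeZero n] (F : ZMod n → ℝ) :
    ∑ i ∈ range n, F ((i : ℕ) : ZMod n) = ∑ x : ZMod n, F x := by
  refine Finset.sum_nbij' (fun i => (i : ZMod n)) (fun x => x.val) ?_ ?_ ?_ ?_ ?_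
  · intro i _; exact mem_univ _
  · intro x _; exact mem_range.2 (ZMod.val_lt x)
  · intro i hi; exact ZMod.val_natCast_of_lt (mem_range.1 hi)
  · intro x _; exact ZMod.natCast_zmod_val x
  · intro i _; rfl

lemma sum_range_shift (n : ℕ) [NeZero n] (F : ZMod n → ℝ) (c : ZMod n) :
    ∑ i ∈ range n, F (c + (i : ℕ)) = ∑ x : ZMod n, F x := by
  rw [sum_range_zmod n (fun x => F (c + x))]
  exact Equiv.sum_comp (Equiv.addLeft c) F

lemma sum_range_mul (n : ℕ) [NeZero n] (F : ZMod n → ℝ) (c : ZMod n) (q : ℕ) :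
    ∑ i ∈ range (n * q), F (c + (i : ℕ)) = q * ∑ x : ZMod n, F x := by
  induction q with
  | zero => simp
  | succ q ih =>
    rw [Nat.mul_succ, Finset.sum_range_add, ih]
    have h : ∀ i : ℕ, F (c + ((n * q + i : ℕ) : ZMod n)) = F (c + (i : ℕ)) := by
      intro i
      congr 1
      push_cast
      simp
    simp_rw [h]
    rw [sum_range_shift]
    push_cast
    ring

lemma sum_range_approx (n : ℕ) [NeZero n] (F : ZMod n → ℝ) (hF : ∀ x, |F x| ≤ 1) (c : ZMod n)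
    (X : ℕ) :
    |∑ i ∈ range X, F (c + (i : ℕ)) - ((X : ℝ) / n) * ∑ x : ZMod n, F x| ≤ 2 * n := by
  have hn : 0 < n := Nat.pos_of_ne_zero (NeZero.ne n)
  have hnR : (0 : ℝ) < n := by exact_mod_cast hn
  have hX : X = n * (X / n) + X % n := (Nat.div_add_mod X n).symm
  have hr : X % n < n := Nat.mod_lt _ hn
  set q := X / n
  set r := X % n
  have h1 : ∑ i ∈ range X, F (c + (i : ℕ)) =
      q * ∑ x : ZMod n, F x + ∑ i ∈ range r, F (c + ((n * q + i : ℕ) : ZMod n)) := by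
    conv_lhs => rw [hX]
    rw [Finset.sum_range_add, sum_range_mul]
  have h2 : |∑ i ∈ range r, F (c + ((n * q + i : ℕ) : ZMod n))| ≤ r := by
    refine (abs_sum_le_sum_abs _ _).trans ?_
    refine (sum_le_sum (fun i _ => hF _)).trans ?_
    simp
  have h3 : |∑ x : ZMod n, F x| ≤ n := by
    refine (abs_sum_le_sum_abs _ _).trans ?_
    refine (sum_le_sum (fun i _ => hF _)).trans ?_
    simp [ZMod.card]
  have h4 : (X : ℝ) / n = q + (r : ℝ) / n := by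
    rw [hX]
    push_cast
    field_simp
  rw [h1, h4]
  have h5 : (q : ℝ) * ∑ x : ZMod n, F x + ∑ i ∈ range r, F (c + ((n * q + i : ℕ) : ZMod n)) -
      ((q : ℝ) + (r : ℝ) / n) * ∑ x : ZMod n, F x =
      ∑ i ∈ range r, F (c + ((n * q + i : ℕ) : ZMod n)) - ((r : ℝ) / n) * ∑ x : ZMod n, F x := by
    ring
  rw [h5]
  have hrn : (r : ℝ) ≤ n := by exact_mod_cast hr.le
  have h6 : |((r : ℝ) / n) * ∑ x : ZMod n, F x| ≤ n := by
    rw [abs_mul, abs_of_nonneg (by positivity : (0 : ℝ) ≤ (r : ℝ) / n)]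
    calc ((r : ℝ) / n) * |∑ x : ZMod n, F x| ≤ ((r : ℝ) / n) * n := by gcongr
      _ = r := by field_simp
      _ ≤ n := hrn
  refine (abs_sub _ _).trans ?_
  linarith

lemma sum_Icc_approx (n : ℕ) [NeZero n] (F : ZMod n → ℝ) (hF : ∀ x, |F x| ≤ 1) (N : ℤ)
    (X : ℕ) :
    |∑ t ∈ Icc 1 X, F (((N + (t : ℤ) : ℤ)) : ZMod n) - ((X : ℝ) / n) * ∑ x : ZMod n, F x| ≤
      2 * n := by
  have h : ∑ t ∈ Icc 1 X, F (((N + (t : ℤ) : ℤ)) : ZMod n) =
      ∑ i ∈ range X, F (((N + 1 : ℤ) : ZMod n) + (i : ℕ)) := by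
    have : Icc 1 X = Ico 1 (X + 1) := by ext; simp [Nat.lt_succ_iff]
    rw [this, Finset.sum_Ico_eq_sum_range]
    simp only [Nat.add_sub_cancel]
    refine sum_congr rfl fun i _ => ?_
    congr 1
    push_cast
    ring
  rw [h]
  exact sum_range_approx n F hF _ X

/-! ### The symbols -/

lemma abs_J_le (a : ℤ) (n : ℕ) : |(jacobiSym a n : ℝ)| ≤ 1 := by
  rcases jacobiSym.trichotomy a n with h | h | h <;> rw [h] <;> norm_num

/-- the symbol as a function on the classes -/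
noncomputable def Fj (D : ℤ) (n : ℕ) (x : ZMod n) : ℝ := (jacobiSym (D * (x.val : ℤ)) n : ℝ)

lemma J_congr {a b : ℤ} {n : ℕ} (h : (a : ZMod n) = b) : jacobiSym a n = jacobiSym b n := by
  apply jacobiSym.mod_left'
  exact (ZMod.intCast_eq_intCast_iff' a b n).1 h

lemma Fj_int (D : ℤ) (n : ℕ) [NeZero n] (z : ℤ) :
    Fj D n ((z : ℤ) : ZMod n) = (jacobiSym (D * z) n : ℝ) := by
  unfold Fj
  congr 1
  apply J_congr
  push_cast
  simp

lemma Fj_abs (D : ℤ) (n : ℕ) (x : ZMod n) : |Fj D n x| ≤ 1 := abs_J_le _ _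

lemma Fj_sum (D : ℤ) (p q : ℕ) [hp : Fact p.Prime] [hq : Fact q.Prime] (hpq : p ≠ q)
    (hp2 : p ≠ 2) [NeZero (p * q)] : ∑ x : ZMod (p * q), Fj D (p * q) x = 0 := by
  have hcop : Nat.Coprime p q := (Nat.coprime_primes hp.out hq.out).2 hpq
  obtain ⟨a, ha⟩ := quadraticChar_exists_neg_one (F := ZMod p) (by rwa [ZMod.ringChar_zmod_n])
  obtain ⟨k, hk1, hk2⟩ := Nat.chineseRemainder hcop a.val 1
  have hJp : jacobiSym (k : ℤ) p = -1 := by
    have h1 : ((k : ℤ) : ZMod p) = ((a.val : ℤ) : ZMod p) := by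
      push_cast
      exact (ZMod.natCast_eq_natCast_iff _ _ _).2 hk1
    rw [J_congr h1, ← jacobiSym.legendreSym.to_jacobiSym]
    unfold legendreSym
    simp [ha]
  have hJq : jacobiSym (k : ℤ) q = 1 := by
    have h1 : ((k : ℤ) : ZMod q) = ((1 : ℤ) : ZMod q) := by
      push_cast
      have := (ZMod.natCast_eq_natCast_iff _ _ _).2 hk2
      simpa using this
    rw [J_congr h1]
    exact jacobiSym.one_left q
  have hJ : jacobiSym (k : ℤ) (p * q) = -1 := by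
    rw [jacobiSym.mul_right, hJp, hJq]
    norm_num
  have hkc : Nat.Coprime k (p * q) := by
    by_contra h
    have h0 : jacobiSym (k : ℤ) (p * q) = 0 := by
      rw [jacobiSym.eq_zero_iff]
      refine ⟨NeZero.ne _, ?_⟩
      rw [Int.gcd_natCast_natCast]
      exact h
    rw [h0] at hJ
    norm_num at hJ
  have h1 : ∑ x : ZMod (p * q), Fj D (p * q) x =
      ∑ x : ZMod (p * q), Fj D (p * q) (ZMod.unitOfCoprime k hkc * x) :=
    (Equiv.sum_comp (Units.mulLeft (ZMod.unitOfCoprime k hkc)) (Fj D (p * q))).symm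
  have h2 : ∀ x : ZMod (p * q), Fj D (p * q) (ZMod.unitOfCoprime k hkc * x) =
      - Fj D (p * q) x := by
    intro x
    have hx : (ZMod.unitOfCoprime k hkc : ZMod (p * q)) * x =
        (((k : ℤ) * (x.val : ℤ) : ℤ) : ZMod (p * q)) := by
      push_cast
      rw [ZMod.coe_unitOfCoprime, ZMod.natCast_zmod_val]
    rw [hx, Fj_int]
    have : D * ((k : ℤ) * (x.val : ℤ)) = (k : ℤ) * (D * (x.val : ℤ)) := by ring
    rw [this, jacobiSym.mul_left, hJ]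
    unfold Fj
    push_cast
    ring
  simp_rw [h2] at h1
  rw [Finset.sum_neg_distrib] at h1
  linarith

/-! ### The second moment -/

/-- the summand -/
noncomputable def gg (D N1 N2 : ℤ) (p : ℕ) (t : ℕ × ℕ) : ℝ :=
  if (p : ℤ) ∣ (N1 + (t.1 : ℤ)) - (N2 + (t.2 : ℤ)) then (jacobiSym (D * (N1 + (t.1 : ℤ))) p : ℝ)
  else 0

/-- the indicator -/
noncomputable def ind (n : ℕ) (z : ℤ) : ℝ := if (n : ℤ) ∣ z then 1 else 0

lemma ind_nonneg (n : ℕ) (z : ℤ) : 0 ≤ ind n z := by unfold ind; split_ifs <;> norm_num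

lemma gg_sq_le (D N1 N2 : ℤ) (p : ℕ) (t : ℕ × ℕ) :
    gg D N1 N2 p t * gg D N1 N2 p t ≤ ind p ((N1 + (t.1 : ℤ)) - (N2 + (t.2 : ℤ))) := by
  unfold gg ind
  split_ifs with h
  · have := abs_J_le (D * (N1 + (t.1 : ℤ))) p
    rw [abs_le] at this
    nlinarith
  · simp

lemma gg_mul (D N1 N2 : ℤ) (p q : ℕ) [hp : Fact p.Prime] [hq : Fact q.Prime] (hpq : p ≠ q)
    (t : ℕ × ℕ) :
    gg D N1 N2 p t * gg D N1 N2 q t = (jacobiSym (D * (N2 + (t.2 : ℤ))) (p * q) : ℝ) *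
      ind (p * q) ((N1 + (t.1 : ℤ)) - (N2 + (t.2 : ℤ))) := by
  have hcop : IsCoprime (p : ℤ) (q : ℤ) :=
    Nat.isCoprime_iff_coprime.2 ((Nat.coprime_primes hp.out hq.out).2 hpq)
  have hJ : ∀ r : ℕ, (r : ℤ) ∣ (N1 + (t.1 : ℤ)) - (N2 + (t.2 : ℤ)) →
      jacobiSym (D * (N1 + (t.1 : ℤ))) r = jacobiSym (D * (N2 + (t.2 : ℤ))) r := by
    intro r hr
    apply J_congr
    have : ((N1 + (t.1 : ℤ) : ℤ) : ZMod r) = ((N2 + (t.2 : ℤ) : ℤ) : ZMod r) := by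
      rw [← sub_eq_zero, ← Int.cast_sub]
      exact (ZMod.intCast_zmod_eq_zero_iff_dvd _ _).2 hr
    rw [Int.cast_mul, Int.cast_mul, this]
  unfold gg ind
  by_cases h1 : (p : ℤ) ∣ (N1 + (t.1 : ℤ)) - (N2 + (t.2 : ℤ))
  · by_cases h2 : (q : ℤ) ∣ (N1 + (t.1 : ℤ)) - (N2 + (t.2 : ℤ))
    · have h3 : ((p * q : ℕ) : ℤ) ∣ (N1 + (t.1 : ℤ)) - (N2 + (t.2 : ℤ)) := by
        push_cast
        exact hcop.mul_dvd h1 h2
      rw [if_pos h1, if_pos h2, if_pos h3, hJ p h1, hJ q h2, jacobiSym.mul_right]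
      push_cast
      ring
    · have h3 : ¬ ((p * q : ℕ) : ℤ) ∣ (N1 + (t.1 : ℤ)) - (N2 + (t.2 : ℤ)) := by
        intro h
        exact h2 (dvd_trans (by push_cast; exact dvd_mul_left _ _) h)
      rw [if_neg h2, if_neg h3]
      ring
  · have h3 : ¬ ((p * q : ℕ) : ℤ) ∣ (N1 + (t.1 : ℤ)) - (N2 + (t.2 : ℤ)) := by
      intro h
      exact h1 (dvd_trans (by push_cast; exact dvd_mul_right _ _) h)
    rw [if_neg h1, if_neg h3]
    ring

lemma count_approx (n : ℕ) [NeZero n] (N b : ℤ) (X : ℕ) :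
    |∑ t ∈ Icc 1 X, ind n ((N + (t : ℤ)) - b) - (X : ℝ) / n| ≤ 2 * n := by
  classical
  have h := sum_Icc_approx n (fun x : ZMod n => if x = (b : ZMod n) then (1 : ℝ) else 0)
    (fun x => by split_ifs <;> norm_num) N X
  have h1 : ∑ x : ZMod n, (if x = (b : ZMod n) then (1 : ℝ) else 0) = 1 := by simp
  rw [h1, mul_one] at h
  have h2 : ∑ t ∈ Icc 1 X, ind n ((N + (t : ℤ)) - b) =
      ∑ t ∈ Icc 1 X, (if (((N + (t : ℤ) : ℤ)) : ZMod n) = (b : ZMod n) then (1 : ℝ) else 0) := by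
    refine sum_congr rfl fun t _ => ?_
    unfold ind
    have : ((n : ℤ) ∣ (N + (t : ℤ)) - b) ↔ (((N + (t : ℤ) : ℤ)) : ZMod n) = (b : ZMod n) := by
      rw [← sub_eq_zero, ← Int.cast_sub, ZMod.intCast_zmod_eq_zero_iff_dvd]
    by_cases hh : (n : ℤ) ∣ (N + (t : ℤ)) - b
    · rw [if_pos hh, if_pos (this.1 hh)]
    · rw [if_neg hh, if_neg (fun h' => hh (this.2 h'))]
  rw [h2]
  exact h

lemma sum_diag (D N1 N2 : ℤ) (p : ℕ) [NeZero p] (X : ℕ) :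
    ∑ t ∈ Icc 1 X ×ˢ Icc 1 X, gg D N1 N2 p t * gg D N1 N2 p t ≤
      (X : ℝ) ^ 2 / p + 2 * p * X := by
  refine (sum_le_sum fun t _ => gg_sq_le D N1 N2 p t).trans ?_
  rw [Finset.sum_product_right]
  have h : ∀ t2 ∈ Icc 1 X, ∑ t1 ∈ Icc 1 X, ind p ((N1 + (t1 : ℤ)) - (N2 + (t2 : ℤ))) ≤
      (X : ℝ) / p + 2 * p := by
    intro t2 _
    have := count_approx p N1 (N2 + (t2 : ℤ)) X
    rw [abs_le] at this
    linarith [this.2]
  refine (sum_le_sum h).trans ?_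
  simp only [sum_const, Nat.card_Icc, Nat.add_sub_cancel, nsmul_eq_mul]
  apply le_of_eq
  ring

lemma sum_off (D N1 N2 : ℤ) (p q : ℕ) [hp : Fact p.Prime] [hq : Fact q.Prime] (hpq : p ≠ q)
    (hp2 : p ≠ 2) (X : ℕ) :
    ∑ t ∈ Icc 1 X ×ˢ Icc 1 X, gg D N1 N2 p t * gg D N1 N2 q t ≤ 4 * X * (p * q) := by
  have hp0 : 0 < p := hp.out.pos
  have hq0 : 0 < q := hq.out.pos
  have : NeZero (p * q) := ⟨(Nat.mul_pos hp0 hq0).ne'⟩
  have hn1 : (1 : ℝ) ≤ p * q := by exact_mod_cast Nat.mul_pos hp0 hq0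
  rw [Finset.sum_product_right]
  have h : ∀ t2 ∈ Icc 1 X, ∑ t1 ∈ Icc 1 X, gg D N1 N2 p (t1, t2) * gg D N1 N2 q (t1, t2) ≤
      (X : ℝ) / (p * q) * (jacobiSym (D * (N2 + (t2 : ℤ))) (p * q) : ℝ) + 2 * (p * q) := by
    intro t2 _
    simp_rw [gg_mul D N1 N2 p q hpq, ← Finset.mul_sum]
    have h1 := count_approx (p * q) N1 (N2 + (t2 : ℤ)) X
    have h2 := abs_J_le (D * (N2 + (t2 : ℤ))) (p * q)
    push_cast at h1
    set S := ∑ t1 ∈ Icc 1 X, ind (p * q) ((N1 + (t1 : ℤ)) - (N2 + (t2 : ℤ)))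
    set J := (jacobiSym (D * (N2 + (t2 : ℤ))) (p * q) : ℝ)
    have h3 : J * S = (X : ℝ) / (p * q) * J + J * (S - (X : ℝ) / (p * q)) := by ring
    rw [h3]
    have h4 : J * (S - (X : ℝ) / (p * q)) ≤ 2 * (p * q) := by
      calc J * (S - (X : ℝ) / (p * q)) ≤ |J * (S - (X : ℝ) / (p * q))| := le_abs_self _
        _ = |J| * |S - (X : ℝ) / (p * q)| := abs_mul _ _
        _ ≤ 1 * (2 * (p * q)) := by gcongr
        _ = 2 * (p * q) := one_mul _
    linarith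
  refine (sum_le_sum h).trans ?_
  rw [sum_add_distrib, ← mul_sum]
  have h5 : |∑ t ∈ Icc 1 X, (jacobiSym (D * (N2 + (t : ℤ))) (p * q) : ℝ)| ≤ 2 * (p * q) := by
    have h6 := sum_Icc_approx (p * q) (Fj D (p * q)) (Fj_abs D (p * q)) N2 X
    rw [Fj_sum D p q hpq hp2, mul_zero, sub_zero] at h6
    simp_rw [Fj_int] at h6
    push_cast at h6
    exact h6
  simp only [sum_const, Nat.card_Icc, Nat.add_sub_cancel, nsmul_eq_mul]
  have h7 : (X : ℝ) / (p * q) * ∑ t ∈ Icc 1 X, (jacobiSym (D * (N2 + (t : ℤ))) (p * q) : ℝ) ≤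
      2 * X := by
    calc (X : ℝ) / (p * q) * ∑ t ∈ Icc 1 X, (jacobiSym (D * (N2 + (t : ℤ))) (p * q) : ℝ)
        ≤ (X : ℝ) / (p * q) * (2 * (p * q)) := by
          gcongr
          exact (le_abs_self _).trans h5
      _ = 2 * X := by field_simp
  have hX0 : (0 : ℝ) ≤ X := Nat.cast_nonneg _
  nlinarith

lemma second_moment (D N1 N2 : ℤ) (X y : ℕ) (P : Finset ℕ)
    (hP : ∀ p ∈ P, p.Prime ∧ 11 ≤ p ∧ p ≤ y) :
    ∑ t ∈ Icc 1 X ×ˢ Icc 1 X, (∑ p ∈ P, gg D N1 N2 p t) ^ 2 ≤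
      (X : ℝ) ^ 2 * ∑ p ∈ P, (1 : ℝ) / p + 2 * X * (y : ℝ) ^ 2 + 4 * X * (y : ℝ) ^ 4 := by
  classical
  have hcard : (P.card : ℝ) ≤ y := by
    have : P ⊆ Icc 1 y := fun p hp => mem_Icc.2 ⟨(hP p hp).1.one_lt.le, (hP p hp).2.2⟩
    have := card_le_card this
    rw [Nat.card_Icc, Nat.add_sub_cancel] at this
    exact_mod_cast this
  have hX0 : (0 : ℝ) ≤ X := Nat.cast_nonneg _
  have hy0 : (0 : ℝ) ≤ y := Nat.cast_nonneg _
  have h1 : ∑ t ∈ Icc 1 X ×ˢ Icc 1 X, (∑ p ∈ P, gg D N1 N2 p t) ^ 2 =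
      ∑ p ∈ P, ∑ q ∈ P, ∑ t ∈ Icc 1 X ×ˢ Icc 1 X, gg D N1 N2 p t * gg D N1 N2 q t := by
    simp_rw [sq, Finset.sum_mul_sum]
    rw [sum_comm]
    refine sum_congr rfl fun p _ => ?_
    rw [sum_comm]
  rw [h1]
  have h2 : ∀ p ∈ P, ∑ q ∈ P, ∑ t ∈ Icc 1 X ×ˢ Icc 1 X, gg D N1 N2 p t * gg D N1 N2 q t ≤
      ((X : ℝ) ^ 2 / p + 2 * y * X) + 4 * X * (y : ℝ) ^ 3 := by
    intro p hp
    have : Fact p.Prime := ⟨(hP p hp).1⟩
    have : NeZero p := ⟨(hP p hp).1.ne_zero⟩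
    have hpy : (p : ℝ) ≤ y := by exact_mod_cast (hP p hp).2.2
    rw [← add_sum_erase _ _ hp]
    refine add_le_add ?_ ?_
    · refine (sum_diag D N1 N2 p X).trans ?_
      gcongr
    · have h3 : ∀ q ∈ P.erase p, ∑ t ∈ Icc 1 X ×ˢ Icc 1 X, gg D N1 N2 p t * gg D N1 N2 q t ≤
          4 * X * (y : ℝ) ^ 2 := by
        intro q hq
        obtain ⟨hqp, hq⟩ := mem_erase.1 hq
        have : Fact q.Prime := ⟨(hP q hq).1⟩
        have hqy : (q : ℝ) ≤ y := by exact_mod_cast (hP q hq).2.2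
        refine (sum_off D N1 N2 p q hqp.symm (by have := (hP p hp).2.1; omega) X).trans ?_
        rw [sq]
        gcongr
      refine (sum_le_sum h3).trans ?_
      rw [sum_const, nsmul_eq_mul]
      have h4 : (((P.erase p).card : ℕ) : ℝ) ≤ y :=
        le_trans (by exact_mod_cast card_le_card (erase_subset _ _)) hcard
      calc (((P.erase p).card : ℕ) : ℝ) * (4 * X * (y : ℝ) ^ 2) ≤ y * (4 * X * (y : ℝ) ^ 2) := by
            gcongr
        _ = 4 * X * (y : ℝ) ^ 3 := by ring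
  refine (sum_le_sum h2).trans ?_
  rw [sum_add_distrib, sum_add_distrib, sum_const, sum_const, nsmul_eq_mul, nsmul_eq_mul]
  have h5 : ∑ p ∈ P, (X : ℝ) ^ 2 / p = (X : ℝ) ^ 2 * ∑ p ∈ P, (1 : ℝ) / p := by
    rw [mul_sum]
    refine sum_congr rfl fun p _ => by ring
  rw [h5]
  have h6 : (P.card : ℝ) * (2 * y * X) ≤ 2 * X * (y : ℝ) ^ 2 := by
    calc (P.card : ℝ) * (2 * y * X) ≤ y * (2 * y * X) := by gcongr
      _ = _ := by ring
  have h7 : (P.card : ℝ) * (4 * X * (y : ℝ) ^ 3) ≤ 4 * X * (y : ℝ) ^ 4 := by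
    calc (P.card : ℝ) * (4 * X * (y : ℝ) ^ 3) ≤ y * (4 * X * (y : ℝ) ^ 3) := by gcongr
      _ = _ := by ring
  linarith

end Pool.Agent.TH374.LS
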