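import Mathlib
import Pool.Agent.TH374.LS.SM

/-!
# Project LS (helper841), job 4417: sums of symbols over the prime factors of the difference
-/

set_option autoImplicit false

namespace Pool.Agent.TH374.LS

open Finset Filter

lemma loglog_large (K : ℝ) : ∃ X0 : ℕ, 3 ≤ X0 ∧ ∀ X : ℕ, X0 ≤ X → K ≤ Real.log (Real.log X) := by
  have h : Tendsto (fun X : ℕ => Real.log (Real.log X)) atTop atTop :=
    Real.tendsto_log_atTop.comp (Real.tendsto_log_atTop.comp tendsto_natCast_atTop_atTop)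
  obtain ⟨N, hN⟩ := eventually_atTop.1 (h.eventually_ge_atTop K)
  exact ⟨max 3 N, le_max_left _ _, fun X hX => hN X (le_trans (le_max_right _ _) hX)⟩

/-- the number of the large prime factors -/
lemma card_large {m : ℤ} (hm : m ≠ 0) {X L : ℕ} (hX : 3 ≤ X) (hmX : m.natAbs ≤ X ^ L)
    {y : ℕ} (hy : X < (y + 1) ^ 4) (hy1 : 1 ≤ y) :
    (m.natAbs.primeFactors.filter (fun p => y < p)).card ≤ 4 * L := by
  have hm0 : 0 < m.natAbs := Int.natAbs_pos.2 hm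
  have h1 : (y + 1) ^ (m.natAbs.primeFactors.filter (fun p => y < p)).card ≤
      ∏ p ∈ m.natAbs.primeFactors.filter (fun p => y < p), p := by
    apply Finset.pow_card_le_prod
    intro p hp
    have := (mem_filter.1 hp).2
    omega
  have h2 : ∏ p ∈ m.natAbs.primeFactors.filter (fun p => y < p), p ≤ m.natAbs := by
    refine Nat.le_of_dvd hm0 (dvd_trans ?_ (Nat.prod_primeFactors_dvd m.natAbs))
    exact Finset.prod_dvd_prod_of_subset _ _ _ (filter_subset _ _)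
  have h3 : (y + 1) ^ (m.natAbs.primeFactors.filter (fun p => y < p)).card ≤
      (y + 1) ^ (4 * L) := by
    refine h1.trans (h2.trans (hmX.trans ?_))
    rw [pow_mul]
    exact Nat.pow_le_pow_left hy.le L
  exact (Nat.pow_le_pow_iff_right (by omega)).1 h3

theorem smx (D : ℤ) (δ ε : ℝ) (L : ℕ) (hδ : 0 < δ) (hε : 0 < ε) :
    ∃ X0 : ℕ, ∀ (N1 N2 : ℤ) (X : ℕ), X0 ≤ X → N1.natAbs ≤ X ^ L → N2.natAbs ≤ X ^ L →
    (((Icc 1 X ×ˢ Icc 1 X).filter (fun t : ℕ × ℕ => N1 + (t.1 : ℤ) ≠ N2 + (t.2 : ℤ) ∧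
      δ * Real.log (Real.log X) <
      ∑ p ∈ ((N1 + (t.1 : ℤ)) - (N2 + (t.2 : ℤ))).natAbs.primeFactors.filter (fun p => 11 ≤ p),
        (jacobiSym (D * (N1 + (t.1 : ℤ))) p : ℝ))).card : ℝ) ≤ ε * X ^ 2 := by
  classical
  obtain ⟨C, hC⟩ := Pool.Agent.Helper256.KM.mertens_inv
  have hC0 : 0 ≤ C := (abs_nonneg _).trans (hC 3 le_rfl)
  obtain ⟨X0, hX03, hX0⟩ := loglog_large
    (max (max (8 * ((L : ℝ) + 2) / δ) (C + 6)) (max (8 / (ε * δ ^ 2)) 1))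
  refine ⟨X0, fun N1 N2 X hX hN1 hN2 => ?_⟩
  have hLL := hX0 X hX
  have hX3 : 3 ≤ X := hX03.trans hX
  set l := Real.log (Real.log X) with hl
  have hl1 : 8 * ((L : ℝ) + 2) / δ ≤ l := ((le_max_left _ _).trans (le_max_left _ _)).trans hLL
  have hl2 : C + 6 ≤ l := ((le_max_right _ _).trans (le_max_left _ _)).trans hLL
  have hl3 : 8 / (ε * δ ^ 2) ≤ l := ((le_max_left _ _).trans (le_max_right _ _)).trans hLL
  have hl4 : 1 ≤ l := ((le_max_right _ _).trans (le_max_right _ _)).trans hLL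
  have hl0 : 0 < l := by linarith
  -- the parameter
  set y := Nat.sqrt (Nat.sqrt X) with hydef
  have hy4 : y ^ 4 ≤ X := by
    have h1 : y ^ 2 ≤ Nat.sqrt X := Nat.sqrt_le' _
    have h2 : (Nat.sqrt X) ^ 2 ≤ X := Nat.sqrt_le' _
    calc y ^ 4 = (y ^ 2) ^ 2 := by ring
      _ ≤ (Nat.sqrt X) ^ 2 := Nat.pow_le_pow_left h1 2
      _ ≤ X := h2
  have hyX : X < (y + 1) ^ 4 := by
    have h1 : Nat.sqrt X < (y + 1) ^ 2 := Nat.lt_succ_sqrt' _
    have h2 : X < (Nat.sqrt X + 1) ^ 2 := Nat.lt_succ_sqrt' _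
    calc X < (Nat.sqrt X + 1) ^ 2 := h2
      _ ≤ ((y + 1) ^ 2) ^ 2 := Nat.pow_le_pow_left h1 2
      _ = (y + 1) ^ 4 := by ring
  have hy1 : 1 ≤ y := by
    rw [hydef, Nat.le_sqrt, Nat.le_sqrt]
    omega
  set P := (Icc 11 y).filter Nat.Prime with hP
  have hPP : ∀ p ∈ P, p.Prime ∧ 11 ≤ p ∧ p ≤ y := by
    intro p hp
    obtain ⟨h1, h2⟩ := mem_filter.1 hp
    exact ⟨h2, (mem_Icc.1 h1).1, (mem_Icc.1 h1).2⟩
  have hsm := second_moment D N1 N2 X y P hPP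
  have hXR : (3 : ℝ) ≤ X := by exact_mod_cast hX3
  have hy4R : (y : ℝ) ^ 4 ≤ X := by exact_mod_cast hy4
  have hy2R : (y : ℝ) ^ 2 ≤ X := by
    have h1 : y ^ 2 ≤ y ^ 4 := Nat.pow_le_pow_right hy1 (by norm_num)
    exact_mod_cast h1.trans hy4
  have hinv : ∑ p ∈ P, (1 : ℝ) / p ≤ l + C := by
    have h1 := (abs_le.1 (hC X hX3)).2
    have hyle : y ≤ X := (Nat.sqrt_le_self _).trans (Nat.sqrt_le_self _)
    have h2 : ∑ p ∈ P, (1 : ℝ) / p ≤ ∑ p ∈ (Finset.Icc 1 X).filter Nat.Prime, (1 : ℝ) / p := by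
      refine Finset.sum_le_sum_of_subset_of_nonneg ?_ fun p _ _ => by positivity
      intro p hp
      obtain ⟨h3, h4, h5⟩ := hPP p hp
      exact mem_filter.2 ⟨mem_Icc.2 ⟨by omega, by omega⟩, h3⟩
    linarith
  have htot : ∑ t ∈ Icc 1 X ×ˢ Icc 1 X, (∑ p ∈ P, gg D N1 N2 p t) ^ 2 ≤
      (X : ℝ) ^ 2 * (2 * l) := by
    refine hsm.trans ?_
    have h1 : (X : ℝ) ^ 2 * ∑ p ∈ P, (1 : ℝ) / p ≤ (X : ℝ) ^ 2 * (l + C) := by gcongr
    have h2 : 2 * (X : ℝ) * (y : ℝ) ^ 2 ≤ 2 * X * X := by gcongr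
    have h3 : 4 * (X : ℝ) * (y : ℝ) ^ 4 ≤ 4 * X * X := by gcongr
    have h4 : (X : ℝ) ^ 2 * (l + C) + 2 * X * X + 4 * X * X = (X : ℝ) ^ 2 * (l + C + 6) := by ring
    have h5 : (X : ℝ) ^ 2 * (l + C + 6) ≤ (X : ℝ) ^ 2 * (2 * l) := by
      gcongr
      linarith
    linarith
  set B := (Icc 1 X ×ˢ Icc 1 X).filter (fun t : ℕ × ℕ => N1 + (t.1 : ℤ) ≠ N2 + (t.2 : ℤ) ∧
      δ * l <
      ∑ p ∈ ((N1 + (t.1 : ℤ)) - (N2 + (t.2 : ℤ))).natAbs.primeFactors.filter (fun p => 11 ≤ p),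
        (jacobiSym (D * (N1 + (t.1 : ℤ))) p : ℝ)) with hB
  -- on the bad set the short sum is large
  have hbad : ∀ t ∈ B, δ / 2 * l ≤ ∑ p ∈ P, gg D N1 N2 p t := by
    intro t ht
    obtain ⟨ht1, hne, ht2⟩ := mem_filter.1 ht
    obtain ⟨htx, hty⟩ := mem_product.1 ht1
    rw [mem_Icc] at htx hty
    set m := (N1 + (t.1 : ℤ)) - (N2 + (t.2 : ℤ)) with hm
    have hm0 : m ≠ 0 := sub_ne_zero.2 hne
    have hmabs : m.natAbs ≤ X ^ (L + 2) := by
      have h1 : m.natAbs ≤ N1.natAbs + N2.natAbs + X := by omega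
      have h2 : X ≤ X ^ (L + 1) := Nat.le_self_pow (by omega) X
      have h3 : X ^ L ≤ X ^ (L + 1) := Nat.pow_le_pow_right (by omega) (by omega)
      have h4 : 3 * X ^ (L + 1) ≤ X ^ (L + 2) := by
        rw [pow_succ X (L + 1), mul_comm 3]
        exact Nat.mul_le_mul_left _ hX3
      omega
    have hlarge := card_large hm0 hX3 hmabs hyX hy1
    have hsplit := sum_filter_add_sum_filter_not
      (m.natAbs.primeFactors.filter (fun p => 11 ≤ p)) (fun p => p ≤ y)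
      (fun p => (jacobiSym (D * (N1 + (t.1 : ℤ))) p : ℝ))
    have hsmall : ∑ p ∈ P, gg D N1 N2 p t =
        ∑ p ∈ (m.natAbs.primeFactors.filter (fun p => 11 ≤ p)).filter (fun p => p ≤ y),
          (jacobiSym (D * (N1 + (t.1 : ℤ))) p : ℝ) := by
      unfold gg
      rw [← sum_filter]
      refine sum_congr ?_ fun _ _ => rfl
      ext p
      simp only [hP, mem_filter, mem_Icc, Nat.mem_primeFactors]
      constructor
      · rintro ⟨⟨⟨h1, h2⟩, h3⟩, h4⟩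
        exact ⟨⟨⟨h3, Int.natCast_dvd.1 h4, by omega⟩, h1⟩, h2⟩
      · rintro ⟨⟨⟨h3, h4, _⟩, h1⟩, h2⟩
        exact ⟨⟨⟨h1, h2⟩, h3⟩, Int.natCast_dvd.2 h4⟩
    have hlarge2 : ∑ p ∈ (m.natAbs.primeFactors.filter (fun p => 11 ≤ p)).filter
        (fun p => ¬ p ≤ y), (jacobiSym (D * (N1 + (t.1 : ℤ))) p : ℝ) ≤ 4 * (L + 2) := by
      refine (le_abs_self _).trans ((abs_sum_le_sum_abs _ _).trans ?_)
      refine (sum_le_sum fun p _ => abs_J_le _ _).trans ?_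
      rw [sum_const, nsmul_eq_mul, mul_one]
      have h1 : ((m.natAbs.primeFactors.filter (fun p => 11 ≤ p)).filter
        (fun p => ¬ p ≤ y)).card ≤ (m.natAbs.primeFactors.filter (fun p => y < p)).card := by
        apply card_le_card
        intro p hp
        obtain ⟨h2, h3⟩ := mem_filter.1 hp
        exact mem_filter.2 ⟨(mem_filter.1 h2).1, by omega⟩
      have h2 := h1.trans hlarge
      exact_mod_cast h2
    rw [hsmall]
    have h8 : 4 * ((L : ℝ) + 2) ≤ δ / 2 * l := by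
      rw [div_le_iff₀ hδ] at hl1
      linarith
    linarith
  have hkey : (B.card : ℝ) * (δ / 2 * l) ^ 2 ≤ (X : ℝ) ^ 2 * (2 * l) := by
    refine le_trans ?_ htot
    have h1 : ∑ t ∈ B, (δ / 2 * l) ^ 2 ≤ ∑ t ∈ B, (∑ p ∈ P, gg D N1 N2 p t) ^ 2 := by
      refine sum_le_sum fun t ht => ?_
      have h0 : 0 ≤ δ / 2 * l := by positivity
      exact pow_le_pow_left₀ h0 (hbad t ht) 2
    rw [sum_const, nsmul_eq_mul] at h1
    refine h1.trans ?_
    exact sum_le_sum_of_subset_of_nonneg (filter_subset _ _) fun _ _ _ => sq_nonneg _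
  have hfin : (X : ℝ) ^ 2 * (2 * l) ≤ (ε * X ^ 2) * (δ / 2 * l) ^ 2 := by
    have h1 : 8 ≤ l * (ε * δ ^ 2) := by
      rwa [div_le_iff₀ (by positivity)] at hl3
    have h2 : (ε * (X : ℝ) ^ 2) * (δ / 2 * l) ^ 2 =
        (X : ℝ) ^ 2 * (l / 4) * (l * (ε * δ ^ 2)) := by ring
    rw [h2]
    calc (X : ℝ) ^ 2 * (2 * l) = (X : ℝ) ^ 2 * (l / 4) * 8 := by ring
      _ ≤ _ := by gcongr
  have hpos : 0 < (δ / 2 * l) ^ 2 := by positivity
  exact le_of_mul_le_mul_right (hkey.trans hfin) hpos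

end Pool.Agent.TH374.LS
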