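import Mathlib
import Pool.Agent.TH374.LS.SMX

/-!
# Project LS (helper841), job 4417: the number of prime factors in short intervals
-/

set_option autoImplicit false

namespace Pool.Agent.TH374.LS

open Finset Filter

/-- the number of the prime factors `≥ 11` -/
def WW (m : ℤ) : ℕ := (m.natAbs.primeFactors.filter (fun p => 11 ≤ p)).card

/-- the number of the primes `≥ 11` whose square divides `m` -/
def EE (m : ℤ) : ℕ := (m.natAbs.primeFactors.filter (fun p => 11 ≤ p ∧ ((p ^ 2 : ℕ) : ℤ) ∣ m)).card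

/-- the primes from `11` to `y` -/
def PY (y : ℕ) : Finset ℕ := (Icc 11 y).filter Nat.Prime

lemma mem_PY {y p : ℕ} : p ∈ PY y ↔ p.Prime ∧ 11 ≤ p ∧ p ≤ y := by
  unfold PY
  rw [mem_filter, mem_Icc]
  tauto

/-- the parameter -/
def yy (X : ℕ) : ℕ := Nat.sqrt (Nat.sqrt X)

lemma yy_pow (X : ℕ) : yy X ^ 4 ≤ X := by
  have h1 : yy X ^ 2 ≤ Nat.sqrt X := Nat.sqrt_le' _
  have h2 : (Nat.sqrt X) ^ 2 ≤ X := Nat.sqrt_le' _
  calc yy X ^ 4 = (yy X ^ 2) ^ 2 := by ring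
    _ ≤ (Nat.sqrt X) ^ 2 := Nat.pow_le_pow_left h1 2
    _ ≤ X := h2

lemma lt_yy (X : ℕ) : X < (yy X + 1) ^ 4 := by
  have h1 : Nat.sqrt X < (yy X + 1) ^ 2 := Nat.lt_succ_sqrt' _
  have h2 : X < (Nat.sqrt X + 1) ^ 2 := Nat.lt_succ_sqrt' _
  calc X < (Nat.sqrt X + 1) ^ 2 := h2
    _ ≤ ((yy X + 1) ^ 2) ^ 2 := Nat.pow_le_pow_left h1 2
    _ = (yy X + 1) ^ 4 := by ring

lemma yy_pos {X : ℕ} (hX : 1 ≤ X) : 1 ≤ yy X := by
  unfold yy
  rw [Nat.le_sqrt, Nat.le_sqrt]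
  omega

lemma yy_le (X : ℕ) : yy X ≤ X := (Nat.sqrt_le_self _).trans (Nat.sqrt_le_self _)

/-- the sum of the inverses of the primes -/
noncomputable def ss (X : ℕ) : ℝ := ∑ p ∈ PY (yy X), (1 : ℝ) / p

lemma ss_nonneg (X : ℕ) : 0 ≤ ss X := sum_nonneg fun p _ => by positivity

lemma ss_approx : ∃ C : ℝ, 0 ≤ C ∧ ∃ X0 : ℕ, ∀ X : ℕ, X0 ≤ X →
    |ss X - Real.log (Real.log X)| ≤ C := by
  obtain ⟨C, hC⟩ := Pool.Agent.Helper256.KM.mertens_inv
  have hC0 : 0 ≤ C := (abs_nonneg _).trans (hC 3 le_rfl)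
  have hl8 : (0 : ℝ) ≤ Real.log 8 := Real.log_nonneg (by norm_num)
  refine ⟨C + 10 + Real.log 8, by positivity, 2 ^ 8, fun X hX => ?_⟩
  have hX1 : 1 ≤ X := le_trans (by norm_num) hX
  have hy3 : 4 ≤ yy X := by
    unfold yy
    rw [Nat.le_sqrt, Nat.le_sqrt]
    norm_num at hX ⊢
    omega
  have hXR : (2 : ℝ) ^ 8 ≤ X := by exact_mod_cast hX
  have hyR : (4 : ℝ) ≤ yy X := by exact_mod_cast hy3
  -- log y ≥ log X / 8
  have hlt : (X : ℝ) < ((yy X : ℝ) + 1) ^ 4 := by exact_mod_cast lt_yy X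
  have hle8 : (X : ℝ) ≤ (yy X : ℝ) ^ 8 := by
    have h1 : (yy X : ℝ) + 1 ≤ (yy X : ℝ) ^ 2 := by nlinarith
    calc (X : ℝ) ≤ ((yy X : ℝ) + 1) ^ 4 := hlt.le
      _ ≤ ((yy X : ℝ) ^ 2) ^ 4 := by gcongr
      _ = (yy X : ℝ) ^ 8 := by ring
  have hlogX : Real.log X ≤ 8 * Real.log (yy X) := by
    have h1 := Real.log_le_log (by linarith : (0 : ℝ) < X) hle8
    rwa [Real.log_pow] at h1
  have hlogXpos : 0 < Real.log X := Real.log_pos (by linarith)
  have hlogypos : 0 < Real.log (yy X) := Real.log_pos (by linarith)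
  have hll1 : Real.log (Real.log X) ≤ Real.log 8 + Real.log (Real.log (yy X)) := by
    rw [← Real.log_mul (by norm_num) hlogypos.ne']
    exact Real.log_le_log hlogXpos hlogX
  have hll2 : Real.log (Real.log (yy X)) ≤ Real.log (Real.log X) := by
    refine Real.log_le_log hlogypos (Real.log_le_log (by linarith) ?_)
    exact_mod_cast yy_le X
  have h1 := hC (yy X) (by omega)
  set S := ∑ p ∈ (Finset.Icc 1 (yy X)).filter Nat.Prime, (1 : ℝ) / p with hS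
  have h2 : ss X ≤ S := by
    refine Finset.sum_le_sum_of_subset_of_nonneg ?_ fun p _ _ => by positivity
    intro p hp
    obtain ⟨h3, h4, h5⟩ := mem_PY.1 hp
    exact mem_filter.2 ⟨mem_Icc.2 ⟨by omega, by omega⟩, h3⟩
  have h3 : S ≤ ss X + 10 := by
    have h4 : (Finset.Icc 1 (yy X)).filter Nat.Prime ⊆ PY (yy X) ∪ Icc 1 10 := by
      intro p hp
      obtain ⟨h5, h6⟩ := mem_filter.1 hp
      rw [mem_Icc] at h5
      rw [mem_union, mem_PY, mem_Icc]
      by_cases h : p ≤ 10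
      · right; exact ⟨h5.1, h⟩
      · left; exact ⟨h6, by omega, h5.2⟩
    have h5 : S ≤ ∑ p ∈ PY (yy X) ∪ Icc 1 10, (1 : ℝ) / p :=
      Finset.sum_le_sum_of_subset_of_nonneg h4 fun p _ _ => by positivity
    have h6 : ∑ p ∈ PY (yy X) ∪ Icc 1 10, (1 : ℝ) / p ≤
        ∑ p ∈ PY (yy X), (1 : ℝ) / p + ∑ p ∈ (Icc 1 10 : Finset ℕ), (1 : ℝ) / p := by
      rw [← sum_union_inter]
      have : (0 : ℝ) ≤ ∑ p ∈ PY (yy X) ∩ Icc 1 10, (1 : ℝ) / p :=
        sum_nonneg fun p _ => by positivity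
      linarith
    have h7 : ∑ p ∈ (Icc 1 10 : Finset ℕ), (1 : ℝ) / p ≤ 10 := by
      have : ∀ p ∈ (Icc 1 10 : Finset ℕ), (1 : ℝ) / p ≤ 1 := by
        intro p hp
        rw [mem_Icc] at hp
        have : (1 : ℝ) ≤ p := by exact_mod_cast hp.1
        rw [div_le_one (by linarith)]
        exact this
      refine (sum_le_sum this).trans ?_
      simp
    unfold ss
    linarith
  rw [abs_le] at h1 ⊢
  constructor
  · linarith [h1.1]
  · linarith [h1.2]

/-- the truncated number of prime factors -/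
noncomputable def om (X : ℕ) (m : ℤ) : ℝ := ∑ p ∈ PY (yy X), ind p m

lemma ind_mul {p q : ℕ} (hp : p.Prime) (hq : q.Prime) (hpq : p ≠ q) (m : ℤ) :
    ind p m * ind q m = ind (p * q) m := by
  have hcop : IsCoprime (p : ℤ) (q : ℤ) :=
    Nat.isCoprime_iff_coprime.2 ((Nat.coprime_primes hp hq).2 hpq)
  have hpm : (p : ℤ) ∣ ((p * q : ℕ) : ℤ) := by push_cast; exact dvd_mul_right _ _
  have hqm : (q : ℤ) ∣ ((p * q : ℕ) : ℤ) := by push_cast; exact dvd_mul_left _ _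
  unfold ind
  by_cases h1 : (p : ℤ) ∣ m
  · by_cases h2 : (q : ℤ) ∣ m
    · rw [if_pos h1, if_pos h2, if_pos (by push_cast; exact hcop.mul_dvd h1 h2), one_mul]
    · rw [if_neg h2, if_neg (fun h => h2 (dvd_trans hqm h)), mul_zero]
  · rw [if_neg h1, if_neg (fun h => h1 (dvd_trans hpm h)), zero_mul]

lemma ind_sq (p : ℕ) (m : ℤ) : ind p m * ind p m = ind p m := by
  unfold ind
  split_ifs <;> norm_num

lemma cnt0 (n : ℕ) [NeZero n] (N : ℤ) (X : ℕ) :
    |∑ t ∈ Icc 1 X, ind n (N + (t : ℤ)) - (X : ℝ) / n| ≤ 2 * n := by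
  have := count_approx n N 0 X
  simpa using this

lemma card_PY' (y : ℕ) : (PY y).card ≤ y := by
  have h : PY y ⊆ Icc 1 y := fun p hp => by
    obtain ⟨h1, h2, h3⟩ := mem_PY.1 hp
    exact mem_Icc.2 ⟨by omega, h3⟩
  have := card_le_card h
  rwa [Nat.card_Icc, Nat.add_sub_cancel] at this

lemma card_PY (y : ℕ) : ((PY y).card : ℝ) ≤ y := by exact_mod_cast card_PY' y

lemma variance (N : ℤ) {X : ℕ} (hX : 1 ≤ X) :
    ∑ t ∈ Icc 1 X, (om X (N + (t : ℤ)) - ss X) ^ 2 ≤ X * (5 * ss X + 4) := by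
  classical
  set y := yy X with hy
  set s := ss X with hs
  have hs0 : 0 ≤ s := ss_nonneg X
  have hy1 : (1 : ℝ) ≤ y := by exact_mod_cast yy_pos hX
  have hy4 : (y : ℝ) ^ 4 ≤ X := by exact_mod_cast yy_pow X
  have hy2 : (y : ℝ) ^ 2 ≤ X := le_trans (pow_le_pow_right₀ hy1 (by norm_num)) hy4
  have hX0 : (0 : ℝ) ≤ X := Nat.cast_nonneg _
  -- first moment
  have h1 : X * s - 2 * (y : ℝ) ^ 2 ≤ ∑ t ∈ Icc 1 X, om X (N + (t : ℤ)) := by
    unfold om
    rw [sum_comm]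
    have h : ∀ p ∈ PY y, (X : ℝ) * (1 / p) - 2 * y ≤ ∑ t ∈ Icc 1 X, ind p (N + (t : ℤ)) := by
      intro p hp
      obtain ⟨h1, h2, h3⟩ := mem_PY.1 hp
      have : NeZero p := ⟨h1.ne_zero⟩
      have h4 := (abs_le.1 (cnt0 p N X)).1
      have h5 : (p : ℝ) ≤ y := by exact_mod_cast h3
      have h6 : (X : ℝ) * (1 / p) = X / p := by ring
      linarith
    refine le_trans ?_ (sum_le_sum h)
    rw [sum_sub_distrib, ← mul_sum, sum_const, nsmul_eq_mul]
    have h7 : ((PY y).card : ℝ) * (2 * y) ≤ 2 * (y : ℝ) ^ 2 := by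
      calc ((PY y).card : ℝ) * (2 * y) ≤ y * (2 * y) := by gcongr; exact card_PY' y
        _ = _ := by ring
    have h8 : ∑ p ∈ PY y, (1 : ℝ) / p = s := rfl
    rw [h8]
    linarith
  -- second moment
  have h2 : ∑ t ∈ Icc 1 X, (om X (N + (t : ℤ))) ^ 2 ≤ X * s ^ 2 + X * s + 2 * (y : ℝ) ^ 2 +
      2 * (y : ℝ) ^ 4 := by
    have h3 : ∑ t ∈ Icc 1 X, (om X (N + (t : ℤ))) ^ 2 =
        ∑ p ∈ PY y, ∑ q ∈ PY y, ∑ t ∈ Icc 1 X, ind p (N + (t : ℤ)) * ind q (N + (t : ℤ)) := by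
      unfold om
      simp_rw [sq, Finset.sum_mul_sum]
      rw [sum_comm]
      refine sum_congr rfl fun p _ => ?_
      rw [sum_comm]
    rw [h3]
    have h4 : ∀ p ∈ PY y, ∑ q ∈ PY y, ∑ t ∈ Icc 1 X, ind p (N + (t : ℤ)) * ind q (N + (t : ℤ)) ≤
        ((X : ℝ) * (1 / p) + 2 * y) + (X * (1 / p) * s + 2 * (y : ℝ) ^ 3) := by
      intro p hp
      obtain ⟨hp1, hp2, hp3⟩ := mem_PY.1 hp
      have : NeZero p := ⟨hp1.ne_zero⟩
      have hpy : (p : ℝ) ≤ y := by exact_mod_cast hp3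
      have hp0 : (0 : ℝ) < p := by exact_mod_cast hp1.pos
      rw [← add_sum_erase _ _ hp]
      refine add_le_add ?_ ?_
      · simp_rw [ind_sq]
        have h5 := (abs_le.1 (cnt0 p N X)).2
        have h6 : (X : ℝ) * (1 / p) = X / p := by ring
        linarith
      · have h5 : ∀ q ∈ (PY y).erase p, ∑ t ∈ Icc 1 X, ind p (N + (t : ℤ)) * ind q (N + (t : ℤ)) ≤
            (X : ℝ) * (1 / p) * (1 / q) + 2 * (y : ℝ) ^ 2 := by
          intro q hq
          obtain ⟨hqp, hq⟩ := mem_erase.1 hq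
          obtain ⟨hq1, hq2, hq3⟩ := mem_PY.1 hq
          have hqy : (q : ℝ) ≤ y := by exact_mod_cast hq3
          have hq0 : (0 : ℝ) < q := by exact_mod_cast hq1.pos
          have : NeZero (p * q) := ⟨(Nat.mul_pos hp1.pos hq1.pos).ne'⟩
          simp_rw [ind_mul hp1 hq1 hqp.symm]
          have h6 := (abs_le.1 (cnt0 (p * q) N X)).2
          push_cast at h6
          have h7 : (X : ℝ) * (1 / p) * (1 / q) = X / (p * q) := by field_simp
          have h8 : (p : ℝ) * q ≤ (y : ℝ) ^ 2 := by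
            rw [sq]
            gcongr
          linarith
        refine (sum_le_sum h5).trans ?_
        rw [sum_add_distrib, ← mul_sum, sum_const, nsmul_eq_mul]
        have h9 : ∑ q ∈ (PY y).erase p, (1 : ℝ) / q ≤ s :=
          sum_le_sum_of_subset_of_nonneg (erase_subset _ _) fun q _ _ => by positivity
        have h10 : (((PY y).erase p).card : ℝ) ≤ y :=
          le_trans (by exact_mod_cast card_le_card (erase_subset _ _)) (card_PY y)
        have h11 : (((PY y).erase p).card : ℝ) * (2 * (y : ℝ) ^ 2) ≤ 2 * (y : ℝ) ^ 3 := by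
          calc (((PY y).erase p).card : ℝ) * (2 * (y : ℝ) ^ 2) ≤ y * (2 * (y : ℝ) ^ 2) := by gcongr
            _ = _ := by ring
        have h12 : (X : ℝ) * (1 / p) * ∑ q ∈ (PY y).erase p, (1 : ℝ) / q ≤
            X * (1 / p) * s := by gcongr
        linarith
    refine (sum_le_sum h4).trans ?_
    have h8 : ∑ p ∈ PY y, (1 : ℝ) / p = s := rfl
    have h20 : ∑ p ∈ PY y, (X : ℝ) * (1 / (p : ℝ)) * s = X * s * s := by
      rw [← sum_mul, ← mul_sum, h8]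
    have h21 : ∑ p ∈ PY y, (X : ℝ) * (1 / (p : ℝ)) = X * s := by
      rw [← mul_sum, h8]
    rw [sum_add_distrib, sum_add_distrib, sum_add_distrib, h20, h21, sum_const,
      sum_const, nsmul_eq_mul, nsmul_eq_mul]
    have h7 : ((PY y).card : ℝ) * (2 * y) ≤ 2 * (y : ℝ) ^ 2 := by
      calc ((PY y).card : ℝ) * (2 * y) ≤ y * (2 * y) := by gcongr; exact card_PY' y
        _ = _ := by ring
    have h9 : ((PY y).card : ℝ) * (2 * (y : ℝ) ^ 3) ≤ 2 * (y : ℝ) ^ 4 := by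
      calc ((PY y).card : ℝ) * (2 * (y : ℝ) ^ 3) ≤ y * (2 * (y : ℝ) ^ 3) := by
            gcongr; exact card_PY' y
        _ = _ := by ring
    nlinarith
  have h3 : ∑ t ∈ Icc 1 X, (om X (N + (t : ℤ)) - s) ^ 2 =
      ∑ t ∈ Icc 1 X, (om X (N + (t : ℤ))) ^ 2 - 2 * s * ∑ t ∈ Icc 1 X, om X (N + (t : ℤ)) +
        X * s ^ 2 := by
    have h4 : ∀ t ∈ Icc 1 X, (om X (N + (t : ℤ)) - s) ^ 2 =
        (om X (N + (t : ℤ))) ^ 2 - 2 * s * om X (N + (t : ℤ)) + s ^ 2 := fun t _ => by ring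
    rw [sum_congr rfl h4, sum_add_distrib, sum_sub_distrib, ← mul_sum, sum_const, Nat.card_Icc,
      Nat.add_sub_cancel, nsmul_eq_mul]
  rw [h3]
  have h4 : 2 * s * (X * s - 2 * (y : ℝ) ^ 2) ≤ 2 * s * ∑ t ∈ Icc 1 X, om X (N + (t : ℤ)) := by
    gcongr
  have h5 : s * (y : ℝ) ^ 2 ≤ s * X := by gcongr
  nlinarith

/-- `W - om` is bounded -/
lemma WW_om {m : ℤ} (hm : m ≠ 0) {X L : ℕ} (hX : 3 ≤ X) (hmX : m.natAbs ≤ X ^ L) :
    |(WW m : ℝ) - om X m| ≤ 4 * L := by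
  classical
  have h1 : om X m = (((m.natAbs.primeFactors.filter (fun p => 11 ≤ p)).filter
      (fun p => p ≤ yy X)).card : ℝ) := by
    unfold om ind
    rw [← sum_filter, sum_const, nsmul_eq_mul, mul_one]
    congr 2
    ext p
    simp only [mem_filter, mem_PY, Nat.mem_primeFactors]
    constructor
    · rintro ⟨⟨h3, h1, h2⟩, h4⟩
      exact ⟨⟨⟨h3, Int.natCast_dvd.1 h4, by simpa using hm⟩, h1⟩, h2⟩
    · rintro ⟨⟨⟨h3, h4, _⟩, h1⟩, h2⟩
      exact ⟨⟨h3, h1, h2⟩, Int.natCast_dvd.2 h4⟩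
  have h2 : WW m = ((m.natAbs.primeFactors.filter (fun p => 11 ≤ p)).filter
      (fun p => p ≤ yy X)).card + ((m.natAbs.primeFactors.filter (fun p => 11 ≤ p)).filter
      (fun p => ¬ p ≤ yy X)).card := by
    unfold WW
    rw [card_filter_add_card_filter_not]
  have h3 : ((m.natAbs.primeFactors.filter (fun p => 11 ≤ p)).filter
      (fun p => ¬ p ≤ yy X)).card ≤ 4 * L := by
    refine le_trans ?_ (card_large hm hX hmX (lt_yy X) (yy_pos (by omega)))
    apply card_le_card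
    intro p hp
    obtain ⟨h2, h3⟩ := mem_filter.1 hp
    exact mem_filter.2 ⟨(mem_filter.1 h2).1, by omega⟩
  have h3R : ((((m.natAbs.primeFactors.filter (fun p => 11 ≤ p)).filter
      (fun p => ¬ p ≤ yy X)).card : ℕ) : ℝ) ≤ 4 * L := by exact_mod_cast h3
  rw [h1, h2]
  push_cast
  rw [abs_le]
  constructor
  · have : (0 : ℝ) ≤ ((((m.natAbs.primeFactors.filter (fun p => 11 ≤ p)).filter
      (fun p => ¬ p ≤ yy X)).card : ℕ) : ℝ) := Nat.cast_nonneg _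
    have h5 : (0 : ℝ) ≤ 4 * L := by positivity
    linarith
  · linarith

open Classical in
/-- the number of prime factors, for almost all integers of a short interval -/
theorem tk (δ ε : ℝ) (L : ℕ) (hδ : 0 < δ) (hε : 0 < ε) :
    ∃ X0 : ℕ, ∀ (N : ℤ) (X : ℕ), X0 ≤ X → N.natAbs ≤ X ^ L →
    (((Icc 1 X).filter (fun t : ℕ => N + (t : ℤ) ≠ 0 ∧
      δ * Real.log (Real.log X) < |(WW (N + (t : ℤ)) : ℝ) - Real.log (Real.log X)|)).card : ℝ) ≤
      ε * X := by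
  obtain ⟨C, hC0, X1, hC⟩ := ss_approx
  obtain ⟨X0, hX03, hX0⟩ := loglog_large
    (max (max (2 * (4 * ((L : ℝ) + 2) + C) / δ) (C + 4)) (max (40 / (ε * δ ^ 2)) 1))
  refine ⟨max X0 X1, fun N X hX hN => ?_⟩
  have hX' : X0 ≤ X := (le_max_left _ _).trans hX
  have hLL := hX0 X hX'
  have hss := hC X ((le_max_right _ _).trans hX)
  have hX3 : 3 ≤ X := hX03.trans hX'
  set l := Real.log (Real.log X) with hl
  have hl1 : 2 * (4 * ((L : ℝ) + 2) + C) / δ ≤ l :=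
    ((le_max_left _ _).trans (le_max_left _ _)).trans hLL
  have hl2 : C + 4 ≤ l := ((le_max_right _ _).trans (le_max_left _ _)).trans hLL
  have hl3 : 40 / (ε * δ ^ 2) ≤ l := ((le_max_left _ _).trans (le_max_right _ _)).trans hLL
  have hl4 : 1 ≤ l := ((le_max_right _ _).trans (le_max_right _ _)).trans hLL
  have hl0 : 0 < l := by linarith
  set B := (Icc 1 X).filter (fun t : ℕ => N + (t : ℤ) ≠ 0 ∧
      δ * l < |(WW (N + (t : ℤ)) : ℝ) - l|) with hB
  have hbad : ∀ t ∈ B, δ / 2 * l ≤ |om X (N + (t : ℤ)) - ss X| := by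
    intro t ht
    obtain ⟨ht1, hne, ht2⟩ := mem_filter.1 ht
    rw [mem_Icc] at ht1
    have hmabs : (N + (t : ℤ)).natAbs ≤ X ^ (L + 2) := by
      have h1 : (N + (t : ℤ)).natAbs ≤ N.natAbs + X := by omega
      have h2 : X ≤ X ^ (L + 1) := Nat.le_self_pow (by omega) X
      have h3 : X ^ L ≤ X ^ (L + 1) := Nat.pow_le_pow_right (by omega) (by omega)
      have h4 : 3 * X ^ (L + 1) ≤ X ^ (L + 2) := by
        rw [pow_succ X (L + 1), mul_comm 3]
        exact Nat.mul_le_mul_left _ hX3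
      omega
    have h1 := WW_om hne hX3 hmabs
    push_cast at h1
    have h2 : |(WW (N + (t : ℤ)) : ℝ) - l| ≤ |(WW (N + (t : ℤ)) : ℝ) - om X (N + (t : ℤ))| +
        |om X (N + (t : ℤ)) - ss X| + |ss X - l| := by
      have h3 := abs_add_le ((WW (N + (t : ℤ)) : ℝ) - om X (N + (t : ℤ)))
        ((om X (N + (t : ℤ)) - ss X) + (ss X - l))
      have h4 := abs_add_le (om X (N + (t : ℤ)) - ss X) (ss X - l)
      have h5 : (WW (N + (t : ℤ)) : ℝ) - om X (N + (t : ℤ)) + ((om X (N + (t : ℤ)) - ss X) +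
        (ss X - l)) = (WW (N + (t : ℤ)) : ℝ) - l := by ring
      rw [h5] at h3
      linarith
    have h8 : 4 * ((L : ℝ) + 2) + C ≤ δ / 2 * l := by
      rw [div_le_iff₀ hδ] at hl1
      linarith
    linarith
  have hkey : (B.card : ℝ) * (δ / 2 * l) ^ 2 ≤ X * (5 * ss X + 4) := by
    refine le_trans ?_ (variance N (by omega : 1 ≤ X))
    have h1 : ∑ t ∈ B, (δ / 2 * l) ^ 2 ≤ ∑ t ∈ B, (om X (N + (t : ℤ)) - ss X) ^ 2 := by
      refine sum_le_sum fun t ht => ?_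
      have h0 : 0 ≤ δ / 2 * l := by positivity
      rw [← sq_abs (om X (N + (t : ℤ)) - ss X)]
      exact pow_le_pow_left₀ h0 (hbad t ht) 2
    rw [sum_const, nsmul_eq_mul] at h1
    refine h1.trans ?_
    exact sum_le_sum_of_subset_of_nonneg (filter_subset _ _) fun _ _ _ => sq_nonneg _
  have hfin : X * (5 * ss X + 4) ≤ (ε * X) * (δ / 2 * l) ^ 2 := by
    have h1 : 40 ≤ l * (ε * δ ^ 2) := by
      rwa [div_le_iff₀ (by positivity)] at hl3
    have h2 : (ε * (X : ℝ)) * (δ / 2 * l) ^ 2 = X * (l / 4) * (l * (ε * δ ^ 2)) := by ring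
    have h3 : 5 * ss X + 4 ≤ 10 * l := by
      have := (abs_le.1 hss).2
      linarith
    rw [h2]
    calc (X : ℝ) * (5 * ss X + 4) ≤ X * (10 * l) := by gcongr
      _ = X * (l / 4) * 40 := by ring
      _ ≤ _ := by gcongr
  have hpos : 0 < (δ / 2 * l) ^ 2 := by positivity
  exact le_of_mul_le_mul_right (hkey.trans hfin) hpos

lemma EE_le {m : ℤ} (hm : m ≠ 0) {X L : ℕ} (hX : 3 ≤ X) (hmX : m.natAbs ≤ X ^ L) :
    (EE m : ℝ) ≤ 4 * L + ∑ p ∈ PY (yy X), ind (p ^ 2) m := by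
  classical
  have h1 : ∑ p ∈ PY (yy X), ind (p ^ 2) m =
      ((((PY (yy X)).filter (fun p => ((p ^ 2 : ℕ) : ℤ) ∣ m)).card : ℕ) : ℝ) := by
    unfold ind
    rw [← sum_filter, sum_const, nsmul_eq_mul, mul_one]
  rw [h1]
  have h2 : EE m ≤ 4 * L + ((PY (yy X)).filter (fun p => ((p ^ 2 : ℕ) : ℤ) ∣ m)).card := by
    have h3 := card_large hm hX hmX (lt_yy X) (yy_pos (by omega))
    have h4 : m.natAbs.primeFactors.filter (fun p => 11 ≤ p ∧ ((p ^ 2 : ℕ) : ℤ) ∣ m) ⊆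
        (m.natAbs.primeFactors.filter (fun p => yy X < p)) ∪
          (PY (yy X)).filter (fun p => ((p ^ 2 : ℕ) : ℤ) ∣ m) := by
      intro p hp
      obtain ⟨h5, h6, h7⟩ := mem_filter.1 hp
      rw [mem_union, mem_filter, mem_filter, mem_PY]
      by_cases h : yy X < p
      · left; exact ⟨h5, h⟩
      · right; exact ⟨⟨Nat.prime_of_mem_primeFactors h5, h6, by omega⟩, h7⟩
    have h5 := (card_le_card h4).trans (card_union_le _ _)
    unfold EE
    omega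
  exact_mod_cast h2

open Classical in
/-- few squares -/
theorem sqf (δ ε : ℝ) (L : ℕ) (hδ : 0 < δ) (hε : 0 < ε) :
    ∃ X0 : ℕ, ∀ (N : ℤ) (X : ℕ), X0 ≤ X → N.natAbs ≤ X ^ L →
    (((Icc 1 X).filter (fun t : ℕ => N + (t : ℤ) ≠ 0 ∧
      δ * Real.log (Real.log X) < (EE (N + (t : ℤ)) : ℝ))).card : ℝ) ≤ ε * X := by
  obtain ⟨X0, hX03, hX0⟩ := loglog_large
    (max (8 * ((L : ℝ) + 2) / δ) (max (8 / (ε * δ)) 1))
  refine ⟨X0, fun N X hX hN => ?_⟩
  have hLL := hX0 X hX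
  have hX3 : 3 ≤ X := hX03.trans hX
  set l := Real.log (Real.log X) with hl
  have hl1 : 8 * ((L : ℝ) + 2) / δ ≤ l := (le_max_left _ _).trans hLL
  have hl3 : 8 / (ε * δ) ≤ l := ((le_max_left _ _).trans (le_max_right _ _)).trans hLL
  have hl4 : 1 ≤ l := ((le_max_right _ _).trans (le_max_right _ _)).trans hLL
  have hl0 : 0 < l := by linarith
  set y := yy X with hy
  have hy1 : (1 : ℝ) ≤ y := by exact_mod_cast yy_pos (by omega : 1 ≤ X)
  have hy4 : (y : ℝ) ^ 4 ≤ X := by exact_mod_cast yy_pow X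
  have hX0' : (0 : ℝ) ≤ X := Nat.cast_nonneg _
  set B := (Icc 1 X).filter (fun t : ℕ => N + (t : ℤ) ≠ 0 ∧
      δ * l < (EE (N + (t : ℤ)) : ℝ)) with hB
  have hbad : ∀ t ∈ B, δ / 2 * l ≤ ∑ p ∈ PY y, ind (p ^ 2) (N + (t : ℤ)) := by
    intro t ht
    obtain ⟨ht1, hne, ht2⟩ := mem_filter.1 ht
    rw [mem_Icc] at ht1
    have hmabs : (N + (t : ℤ)).natAbs ≤ X ^ (L + 2) := by
      have h1 : (N + (t : ℤ)).natAbs ≤ N.natAbs + X := by omega
      have h2 : X ≤ X ^ (L + 1) := Nat.le_self_pow (by omega) X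
      have h3 : X ^ L ≤ X ^ (L + 1) := Nat.pow_le_pow_right (by omega) (by omega)
      have h4 : 3 * X ^ (L + 1) ≤ X ^ (L + 2) := by
        rw [pow_succ X (L + 1), mul_comm 3]
        exact Nat.mul_le_mul_left _ hX3
      omega
    have h1 := EE_le hne hX3 hmabs
    push_cast at h1
    have h8 : 4 * ((L : ℝ) + 2) ≤ δ / 2 * l := by
      rw [div_le_iff₀ hδ] at hl1
      linarith
    linarith
  have hsum : ∑ t ∈ Icc 1 X, ∑ p ∈ PY y, ind (p ^ 2) (N + (t : ℤ)) ≤ 4 * X := by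
    rw [sum_comm]
    have h1 : ∀ p ∈ PY y, ∑ t ∈ Icc 1 X, ind (p ^ 2) (N + (t : ℤ)) ≤
        2 * X * (1 / ((p : ℝ) * (p + 1))) + 2 * (y : ℝ) ^ 2 := by
      intro p hp
      obtain ⟨hp1, hp2, hp3⟩ := mem_PY.1 hp
      have : NeZero (p ^ 2) := ⟨pow_ne_zero 2 hp1.ne_zero⟩
      have hpy : (p : ℝ) ≤ y := by exact_mod_cast hp3
      have hp0 : (1 : ℝ) ≤ p := by exact_mod_cast hp1.one_lt.le
      have h2 := (abs_le.1 (cnt0 (p ^ 2) N X)).2
      push_cast at h2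
      have h3 : (X : ℝ) / (p : ℝ) ^ 2 ≤ 2 * X * (1 / ((p : ℝ) * (p + 1))) := by
        have h4 : 1 / (p : ℝ) ^ 2 ≤ 2 * (1 / ((p : ℝ) * (p + 1))) := by
          rw [div_le_iff₀ (by positivity)]
          have : 2 * (1 / ((p : ℝ) * (p + 1))) * (p : ℝ) ^ 2 = 2 * p / (p + 1) := by
            field_simp
          rw [this, le_div_iff₀ (by positivity)]
          linarith
        calc (X : ℝ) / (p : ℝ) ^ 2 = X * (1 / (p : ℝ) ^ 2) := by ring
          _ ≤ X * (2 * (1 / ((p : ℝ) * (p + 1)))) := by gcongr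
          _ = _ := by ring
      have h5 : (p : ℝ) ^ 2 ≤ (y : ℝ) ^ 2 := by gcongr
      linarith
    refine (sum_le_sum h1).trans ?_
    rw [sum_add_distrib, ← mul_sum, sum_const, nsmul_eq_mul]
    have h2 : ((PY y).card : ℝ) * (2 * (y : ℝ) ^ 2) ≤ 2 * X := by
      calc ((PY y).card : ℝ) * (2 * (y : ℝ) ^ 2) ≤ y * (2 * (y : ℝ) ^ 2) := by
            gcongr; exact card_PY' y
        _ = 2 * (y : ℝ) ^ 3 := by ring
        _ ≤ 2 * (y : ℝ) ^ 4 := by
            have := pow_le_pow_right₀ hy1 (by norm_num : 3 ≤ 4)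
            linarith
        _ ≤ 2 * X := by linarith
    have h3 : ∑ p ∈ PY y, 1 / ((p : ℝ) * (p + 1)) ≤ 1 := by
      have h4 : ∑ p ∈ PY y, 1 / ((p : ℝ) * (p + 1)) ≤
          ∑ p ∈ Ico 1 (y + 1), 1 / ((p : ℝ) * (p + 1)) := by
        refine sum_le_sum_of_subset_of_nonneg ?_ fun p _ _ => by positivity
        intro p hp
        obtain ⟨hp1, hp2, hp3⟩ := mem_PY.1 hp
        exact mem_Ico.2 ⟨by omega, by omega⟩
      have h5 : ∀ n : ℕ, ∑ p ∈ Ico 1 (n + 1), 1 / ((p : ℝ) * (p + 1)) = 1 - 1 / ((n : ℝ) + 1) := by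
        intro n
        induction n with
        | zero => simp
        | succ n ih =>
          rw [sum_Ico_succ_top (by omega), ih]
          push_cast
          field_simp
          ring
      rw [h5] at h4
      have : (0 : ℝ) ≤ 1 / ((y : ℝ) + 1) := by positivity
      linarith
    have h4 : 2 * (X : ℝ) * ∑ p ∈ PY y, 1 / ((p : ℝ) * (p + 1)) ≤ 2 * X * 1 := by gcongr
    linarith
  have hkey : (B.card : ℝ) * (δ / 2 * l) ≤ 4 * X := by
    refine le_trans ?_ hsum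
    have h1 : ∑ t ∈ B, (δ / 2 * l) ≤ ∑ t ∈ B, ∑ p ∈ PY y, ind (p ^ 2) (N + (t : ℤ)) :=
      sum_le_sum hbad
    rw [sum_const, nsmul_eq_mul] at h1
    refine h1.trans ?_
    exact sum_le_sum_of_subset_of_nonneg (filter_subset _ _) fun _ _ _ =>
      sum_nonneg fun _ _ => ind_nonneg _ _
  have hfin : 4 * (X : ℝ) ≤ (ε * X) * (δ / 2 * l) := by
    have h1 : 8 ≤ l * (ε * δ) := by
      rwa [div_le_iff₀ (by positivity)] at hl3
    have h2 : (ε * (X : ℝ)) * (δ / 2 * l) = X / 2 * (l * (ε * δ)) := by ring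
    rw [h2]
    calc 4 * (X : ℝ) = X / 2 * 8 := by ring
      _ ≤ _ := by gcongr
  have hpos : 0 < δ / 2 * l := by positivity
  exact le_of_mul_le_mul_right (hkey.trans hfin) hpos

end Pool.Agent.TH374.LS
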